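import Pool.Agent.Helper19.Qh.Stmts

set_option autoImplicit false

/-!
# MP_8410ab_nt, quaternionic family: GD, invariance of the gradient products
-/

namespace Pool.Agent.Helper19.Qh

open MeasureTheory Topology
open scoped ComplexConjugate

variable {m : ℕ}

/-! ### coordinates -/

/-- real coordinates of a quaternion -/
def gd_c (q : Q) : Fin 4 → ℝ := ![q.re, q.imI, q.imJ, q.imK]

theorem gd_c_add (p q : Q) (r : Fin 4) : gd_c (p + q) r = gd_c p r + gd_c q r := by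
  fin_cases r <;> simp [gd_c]

theorem gd_c_sum (q : Q) : ∑ r, gd_c q r • qu r = q := by
  rw [Fin.sum_univ_four]
  ext <;> simp [gd_c, qu]

theorem gd_c_norm (q : Q) : ‖q‖ ^ 2 = ∑ r, gd_c q r ^ 2 := by
  rw [q_norm_sq, Fin.sum_univ_four]
  rfl

theorem gd_c_qu (r s : Fin 4) : gd_c (qu r) s = if r = s then 1 else 0 := by
  fin_cases r <;> fin_cases s <;> simp [gd_c, qu]

theorem gd_c_zero (s : Fin 4) : gd_c 0 s = 0 := by
  fin_cases s <;> rfl

/-- the index set -/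
abbrev gd_I (m : ℕ) : Type := Fin 4 ⊕ (Fin m × Fin 4)

/-- coordinates -/
def gd_co (x : Pt m) : gd_I m → ℝ := Sum.elim (gd_c x.1) (fun kr => gd_c (x.2 kr.1) kr.2)

/-- the standard basis -/
noncomputable def gd_u : gd_I m → Pt m :=
  Sum.elim (fun r => (qu r, 0)) (fun kr => (0, ek kr.1 (qu kr.2)))

theorem gd_co_add (x y : Pt m) (i : gd_I m) : gd_co (x + y) i = gd_co x i + gd_co y i := by
  rcases i with r | ⟨k, r⟩
  · exact gd_c_add x.1 y.1 r
  · exact gd_c_add (x.2 k) (y.2 k) r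

theorem gd_ek_smul (k : Fin m) (a : ℝ) (q : Q) : ek k (a • q) = a • ek k q := by
  unfold ek
  ext1 j
  by_cases h : j = k
  · subst h
    simp
  · simp [h]

theorem gd_ek_sum (k : Fin m) (s : Fin 4 → Q) : ek k (∑ r, s r) = ∑ r, ek k (s r) := by
  rw [Fin.sum_univ_four, Fin.sum_univ_four]
  unfold ek
  ext1 j
  by_cases h : j = k
  · subst h
    simp
  · simp [h]

theorem gd_e_sum (e : E m) : ∑ k, ek k (e k) = e := by
  ext1 j
  rw [WithLp.ofLp_sum, Finset.sum_apply, Finset.sum_eq_single j]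
  · simp [ek]
  · intro k _ hk
    simp [ek, Ne.symm hk]
  · intro h
    exact absurd (Finset.mem_univ j) h

theorem gd_sum (x : Pt m) : ∑ i, gd_co x i • gd_u i = x := by
  rw [Fintype.sum_sum_type, Fintype.sum_prod_type]
  have h1 : ∑ r : Fin 4, gd_co x (Sum.inl r) • gd_u (Sum.inl r : gd_I m) = (x.1, 0) := by
    have h2 : ∀ r : Fin 4, gd_co x (Sum.inl r) • gd_u (Sum.inl r : gd_I m)
        = (gd_c x.1 r • qu r, (0 : E m)) := by
      intro r
      refine Prod.ext rfl ?_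
      show gd_c x.1 r • (0 : E m) = 0
      rw [smul_zero]
    rw [Finset.sum_congr rfl fun r _ => h2 r]
    refine Prod.ext ?_ ?_
    · rw [Prod.fst_sum]
      exact gd_c_sum x.1
    · rw [Prod.snd_sum]
      simp
  have h3 : ∑ k : Fin m, ∑ r : Fin 4, gd_co x (Sum.inr (k, r)) • gd_u (Sum.inr (k, r) : gd_I m)
      = (0, x.2) := by
    have h2 : ∀ k : Fin m, ∑ r : Fin 4, gd_co x (Sum.inr (k, r)) • gd_u (Sum.inr (k, r) : gd_I m)
        = ((0 : Q), ek k (x.2 k)) := by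
      intro k
      have h4 : ∀ r : Fin 4, gd_co x (Sum.inr (k, r)) • gd_u (Sum.inr (k, r) : gd_I m)
          = ((0 : Q), ek k (gd_c (x.2 k) r • qu r)) := by
        intro r
        rw [gd_ek_smul]
        refine Prod.ext ?_ rfl
        show gd_c (x.2 k) r • (0 : Q) = 0
        rw [smul_zero]
      rw [Finset.sum_congr rfl fun r _ => h4 r]
      refine Prod.ext ?_ ?_
      · rw [Prod.fst_sum]
        simp
      · rw [Prod.snd_sum]
        show ∑ r, ek k (gd_c (x.2 k) r • qu r) = ek k (x.2 k)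
        rw [← gd_ek_sum, gd_c_sum]
    rw [Finset.sum_congr rfl fun k _ => h2 k]
    refine Prod.ext ?_ ?_
    · rw [Prod.fst_sum]
      simp
    · rw [Prod.snd_sum]
      exact gd_e_sum x.2
  rw [h1, h3]
  refine Prod.ext ?_ ?_
  · show x.1 + 0 = x.1
    rw [add_zero]
  · show 0 + x.2 = x.2
    rw [zero_add]

theorem gd_norm (x : Pt m) : ‖x.1‖ ^ 2 + ‖x.2‖ ^ 2 = ∑ i, gd_co x i ^ 2 := by
  rw [Fintype.sum_sum_type, Fintype.sum_prod_type, gd_c_norm, PiLp.norm_sq_eq_of_L2]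
  congr 1
  exact Finset.sum_congr rfl fun k _ => gd_c_norm (x.2 k)

theorem gd_co_u (i j : gd_I m) : gd_co (gd_u i) j = if i = j then 1 else 0 := by
  rcases i with r | ⟨k, r⟩ <;> rcases j with s | ⟨l, s⟩
  · show gd_c (qu r) s = _
    rw [gd_c_qu]
    simp
  · show gd_c ((0 : E m) l) s = _
    rw [PiLp.zero_apply, gd_c_zero]
    simp
  · show gd_c 0 s = _
    rw [gd_c_zero]
    simp
  · show gd_c (ek k (qu r) l) s = _
    by_cases h : l = k
    · subst h
      have h1 : ek l (qu r) l = qu r := by simp [ek]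
      rw [h1, gd_c_qu]
      simp
    · have h1 : ek k (qu r) l = 0 := by simp [ek, h]
      rw [h1, gd_c_zero, if_neg]
      intro h2
      have h3 := Sum.inr.inj h2
      exact h (congrArg Prod.fst h3).symm

/-! ### invariance of a trace under an orthogonal map -/

theorem gd_pol (A : Pt m →ₗ[ℝ] Pt m)
    (hA : ∀ x : Pt m, ‖(A x).1‖ ^ 2 + ‖(A x).2‖ ^ 2 = ‖x.1‖ ^ 2 + ‖x.2‖ ^ 2) (x y : Pt m) :
    ∑ j, gd_co (A x) j * gd_co (A y) j = ∑ j, gd_co x j * gd_co y j := by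
  have key : ∀ x y : Pt m, ∑ j, gd_co (x + y) j ^ 2 = ∑ j, gd_co x j ^ 2
      + 2 * ∑ j, gd_co x j * gd_co y j + ∑ j, gd_co y j ^ 2 := by
    intro x y
    rw [Finset.mul_sum, ← Finset.sum_add_distrib, ← Finset.sum_add_distrib]
    refine Finset.sum_congr rfl fun j _ => ?_
    rw [gd_co_add]
    ring
  have h1 := hA (x + y)
  have h2 := hA x
  have h3 := hA y
  rw [gd_norm, gd_norm] at h1 h2 h3
  rw [map_add, key, key, h2, h3] at h1
  linarith

theorem gd_orth (A : Pt m →ₗ[ℝ] Pt m)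
    (hA : ∀ x : Pt m, ‖(A x).1‖ ^ 2 + ‖(A x).2‖ ^ 2 = ‖x.1‖ ^ 2 + ‖x.2‖ ^ 2)
    (φ χ : Pt m →ₗ[ℝ] ℂ) :
    ∑ i, φ (A (gd_u i)) * χ (A (gd_u i)) = ∑ i, φ (gd_u i) * χ (gd_u i) := by
  obtain ⟨O, hO⟩ : ∃ O : Matrix (gd_I m) (gd_I m) ℝ, ∀ j i, O j i = gd_co (A (gd_u i)) j :=
    ⟨fun j i => gd_co (A (gd_u i)) j, fun _ _ => rfl⟩
  have h1 : O.transpose * O = 1 := by
    ext i k
    rw [Matrix.mul_apply, Matrix.one_apply]
    have h2 := gd_pol A hA (gd_u i) (gd_u k)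
    simp only [Matrix.transpose_apply, hO]
    rw [h2]
    simp only [gd_co_u]
    simp
  have h2 : O * O.transpose = 1 := mul_eq_one_comm.1 h1
  have hφ : ∀ (ψ : Pt m →ₗ[ℝ] ℂ) i, ψ (A (gd_u i)) = ∑ j, (O j i : ℂ) * ψ (gd_u j) := by
    intro ψ i
    conv_lhs => rw [← gd_sum (A (gd_u i))]
    rw [map_sum]
    refine Finset.sum_congr rfl fun j _ => ?_
    rw [map_smul, hO, Complex.real_smul]
  have h3 : ∀ j l, ∑ i, (O j i : ℂ) * (O l i : ℂ) = if j = l then 1 else 0 := by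
    intro j l
    have h4 := congrArg (fun M : Matrix (gd_I m) (gd_I m) ℝ => M j l) h2
    simp only [Matrix.mul_apply, Matrix.transpose_apply, Matrix.one_apply] at h4
    have h5 := congrArg (fun r : ℝ => (r : ℂ)) h4
    push_cast at h5
    rw [h5]
    split_ifs <;> simp
  calc ∑ i, φ (A (gd_u i)) * χ (A (gd_u i))
      = ∑ i, ∑ j, ∑ l, ((O j i : ℂ) * (O l i : ℂ)) * (φ (gd_u j) * χ (gd_u l)) := by
        refine Finset.sum_congr rfl fun i _ => ?_
        rw [hφ φ i, hφ χ i, Finset.sum_mul_sum]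
        refine Finset.sum_congr rfl fun j _ => Finset.sum_congr rfl fun l _ => ?_
        ring
    _ = ∑ j, ∑ l, (∑ i, (O j i : ℂ) * (O l i : ℂ)) * (φ (gd_u j) * χ (gd_u l)) := by
        rw [Finset.sum_comm]
        refine Finset.sum_congr rfl fun j _ => ?_
        rw [Finset.sum_comm]
        refine Finset.sum_congr rfl fun l _ => ?_
        rw [Finset.sum_mul]
    _ = ∑ j, φ (gd_u j) * χ (gd_u j) := by
        refine Finset.sum_congr rfl fun j _ => ?_
        simp only [h3]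
        simp

theorem gd_orth_norm (A : Pt m →ₗ[ℝ] Pt m)
    (hA : ∀ x : Pt m, ‖(A x).1‖ ^ 2 + ‖(A x).2‖ ^ 2 = ‖x.1‖ ^ 2 + ‖x.2‖ ^ 2)
    (φ : Pt m →ₗ[ℝ] ℂ) :
    ∑ i, ‖φ (A (gd_u i))‖ ^ 2 = ∑ i, ‖φ (gd_u i)‖ ^ 2 := by
  have h := gd_orth A hA φ (Complex.conjAe.toLinearMap.comp φ)
  have h1 : ∀ x, φ x * (Complex.conjAe.toLinearMap.comp φ) x = ((‖φ x‖ ^ 2 : ℝ) : ℂ) := by
    intro x
    have h2 : (Complex.conjAe.toLinearMap.comp φ) x = conj (φ x) := rfl
    rw [h2, Complex.mul_conj']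
    push_cast
    rfl
  simp only [h1] at h
  exact_mod_cast h

/-! ### the frame -/

/-- the frame as a linear map -/
noncomputable def gd_fr (p : Pt m) : Pt m →ₗ[ℝ] Pt m where
  toFun := fr p
  map_add' x y := by
    unfold fr
    refine Prod.ext ?_ ?_
    · show hgt p • (x + y).1 - √(hgt p) • hin (x + y).2 p.2
        = (hgt p • x.1 - √(hgt p) • hin x.2 p.2) + (hgt p • y.1 - √(hgt p) • hin y.2 p.2)
      rw [Prod.fst_add, Prod.snd_add, hin_add_left, smul_add, smul_add]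
      abel
    · show √(hgt p) • (x + y).2 = √(hgt p) • x.2 + √(hgt p) • y.2
      rw [Prod.snd_add, smul_add]
  map_smul' c x := by
    unfold fr
    refine Prod.ext ?_ ?_
    · show hgt p • (c • x).1 - √(hgt p) • hin (c • x).2 p.2
        = c • (hgt p • x.1 - √(hgt p) • hin x.2 p.2)
      rw [Prod.smul_fst, Prod.smul_snd, hin_rsmul_left, smul_sub, smul_comm c, smul_comm c]
    · show √(hgt p) • (c • x).2 = c • √(hgt p) • x.2
      rw [Prod.smul_snd, smul_comm]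

/-- the derivative in the frame -/
noncomputable def gd_D (f : Pt m → ℂ) (p : Pt m) : Pt m →ₗ[ℝ] ℂ :=
  (fderiv ℝ f p).toLinearMap.comp (gd_fr p)

theorem gd_D_inl (f : Pt m → ℂ) (p : Pt m) (r : Fin 4) :
    gd_D f p (gd_u (Sum.inl r)) = (hgt p : ℂ) * pd (qu r, 0) f p := by
  have h1 : fr p (gd_u (Sum.inl r)) = hgt p • ((qu r, 0) : Pt m) := by
    refine Prod.ext ?_ ?_
    · show hgt p • qu r - √(hgt p) • hin (0 : E m) p.2 = hgt p • qu r
      have : hin (0 : E m) p.2 = 0 := by simp [hin]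
      rw [this, smul_zero, sub_zero]
    · show √(hgt p) • (0 : E m) = hgt p • (0 : E m)
      rw [smul_zero, smul_zero]
  show fderiv ℝ f p (fr p (gd_u (Sum.inl r))) = _
  rw [h1, map_smul, Complex.real_smul]
  rfl

theorem gd_D_inr (f : Pt m → ℂ) (p : Pt m) (k : Fin m) (r : Fin 4) :
    gd_D f p (gd_u (Sum.inr (k, r))) = ((√(hgt p) : ℝ) : ℂ) * XX (ek k (qu r)) f p := by
  have h1 : fr p (gd_u (Sum.inr (k, r)))
      = √(hgt p) • ((-hin (ek k (qu r)) p.2, ek k (qu r)) : Pt m) := by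
    refine Prod.ext ?_ rfl
    show hgt p • (0 : Q) - √(hgt p) • hin (ek k (qu r)) p.2 = √(hgt p) • -hin (ek k (qu r)) p.2
    rw [smul_zero, zero_sub, smul_neg]
  show fderiv ℝ f p (fr p (gd_u (Sum.inr (k, r)))) = _
  rw [h1, map_smul, Complex.real_smul]
  rfl

theorem gd_gdot (f h : Pt m → ℂ) {p : Pt m} (hp : p ∈ SD m) :
    gdot f h p = ∑ i, gd_D f p (gd_u i) * gd_D h p (gd_u i) := by
  have h0 : 0 < hgt p := hp
  rw [Fintype.sum_sum_type, Fintype.sum_prod_type]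
  simp only [gd_D_inl, gd_D_inr]
  unfold gdot
  rw [Finset.mul_sum, Finset.mul_sum]
  congr 1
  · exact Finset.sum_congr rfl fun r _ => by ring
  · refine Finset.sum_congr rfl fun k _ => ?_
    rw [Finset.mul_sum]
    refine Finset.sum_congr rfl fun r _ => ?_
    have h1 : ((√(hgt p) : ℝ) : ℂ) * ((√(hgt p) : ℝ) : ℂ) = (hgt p : ℂ) := by
      rw [← Complex.ofReal_mul, Real.mul_self_sqrt h0.le]
    rw [← h1]
    ring

theorem gd_gsq (f : Pt m → ℂ) {p : Pt m} (hp : p ∈ SD m) :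
    gsq f p = ∑ i, ‖gd_D f p (gd_u i)‖ ^ 2 := by
  have h0 : 0 < hgt p := hp
  rw [Fintype.sum_sum_type, Fintype.sum_prod_type]
  simp only [gd_D_inl, gd_D_inr]
  unfold gsq
  rw [Finset.mul_sum, Finset.mul_sum]
  congr 1
  · refine Finset.sum_congr rfl fun r _ => ?_
    rw [norm_mul, mul_pow, Complex.norm_real, Real.norm_eq_abs, sq_abs]
  · refine Finset.sum_congr rfl fun k _ => ?_
    rw [Finset.mul_sum]
    refine Finset.sum_congr rfl fun r _ => ?_
    rw [norm_mul, mul_pow, Complex.norm_real, Real.norm_eq_abs, sq_abs, Real.sq_sqrt h0.le]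

theorem gd_comp {g : V m ≃ₗ[Q] V m} {p : Pt m} {J : Pt m →L[ℝ] Pt m} {A : Pt m →ₗ[ℝ] Pt m}
    (hJ : HasFDerivAt (act g) J p) (hA : ∀ x : Pt m, J (fr p x) = fr (act g p) (A x))
    {f : Pt m → ℂ} (hf : DifferentiableAt ℝ f (act g p)) (x : Pt m) :
    gd_D (fun q => f (act g q)) p x = gd_D f (act g p) (A x) := by
  have h1 : HasFDerivAt (fun q => f (act g q)) ((fderiv ℝ f (act g p)).comp J) p :=
    hf.hasFDerivAt.comp p hJ
  show fderiv ℝ (fun q => f (act g q)) p (fr p x) = fderiv ℝ f (act g p) (fr (act g p) (A x))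
  rw [h1.fderiv, ← hA]
  rfl

theorem st_GD (hJAC : ST_JAC) : ST_GD := by
  intro m g hg p hp f h hf hh
  obtain ⟨J, A, hJ, hA, hn⟩ := hJAC m g hg p hp
  rw [gd_gdot _ _ hp, gd_gdot _ _ (act_mem hg hp),
    ← gd_orth A hn (gd_D f (act g p)) (gd_D h (act g p))]
  refine Finset.sum_congr rfl fun i _ => ?_
  rw [gd_comp hJ hA hf, gd_comp hJ hA hh]

theorem st_GS (hJAC : ST_JAC) : ST_GS := by
  intro m g hg p hp f hf
  obtain ⟨J, A, hJ, hA, hn⟩ := hJAC m g hg p hp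
  rw [gd_gsq _ hp, gd_gsq _ (act_mem hg hp), ← gd_orth_norm A hn (gd_D f (act g p))]
  refine Finset.sum_congr rfl fun i _ => ?_
  rw [gd_comp hJ hA hf]

end Pool.Agent.Helper19.Qh
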